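import Pool.Agent.W149.PPdata

set_option autoImplicit false

/-!
# SCC = CPP does not force the cycle cover property for 3-connected graphs

The graph is `P # P`: two copies of the Petersen graph, a vertex deleted from each, joined by
three edges. It is cubic and 3-connected on 18 vertices. Its shortest cycle cover and its shortest
postman tour both have length 36, but the weight that is 2 on a perfect matching with exactly one
joining edge and 1 elsewhere is eulerian and has no cycle cover with these multiplicities.
-/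

namespace Pool.Agent.Results.MP_b9ebd9_co.ThreeConnectedCounterexample

open Finset

/-- `G` is 3-connected: more than 3 vertices, and deleting at most 2 vertices leaves a
connected graph. -/
def ThreeConnected {V : Type} [Fintype V] (G : SimpleGraph V) : Prop :=
  3 < Fintype.card V ∧
    ∀ S : Finset V, S.card < 3 → (G.induce ((↑S : Set V)ᶜ)).Connected

/-- `p` is a closed walk that traverses every edge at least once. -/
def IsPostmanTour {V : Type} (G : SimpleGraph V) {u : V} (p : G.Walk u u) : Prop :=
  ∀ e ∈ G.edgeSet, e ∈ p.edges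

/-- `CPP(G)`: the minimum length of a closed walk that traverses every edge at least once. -/
noncomputable def CPP {V : Type} (G : SimpleGraph V) : ℕ :=
  sInf {n : ℕ | ∃ (u : V) (p : G.Walk u u), IsPostmanTour G p ∧ p.length = n}

/-- `F` is a cycle cover: a finite family of cycles such that every edge lies in one of them. -/
def IsCycleCover {V : Type} (G : SimpleGraph V) (F : List (Σ u : V, G.Walk u u)) : Prop :=
  (∀ C ∈ F, C.2.IsCycle) ∧ ∀ e ∈ G.edgeSet, ∃ C ∈ F, e ∈ C.2.edges

/-- The length of a family of cycles: the sum of the numbers of edges. -/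
def coverLength {V : Type} {G : SimpleGraph V} (F : List (Σ u : V, G.Walk u u)) : ℕ :=
  (F.map (fun C => C.2.length)).sum

/-- `SCC(G)`: the minimum length of a cycle cover. -/
noncomputable def SCC {V : Type} (G : SimpleGraph V) : ℕ :=
  sInf {n : ℕ | ∃ F : List (Σ u : V, G.Walk u u), IsCycleCover G F ∧ coverLength F = n}

open Classical in
/-- The total weight of the edge cut between `S` and its complement. -/
noncomputable def cutWeight {V : Type} [Fintype V] (G : SimpleGraph V) (w : Sym2 V → ℕ)
    (S : Finset V) : ℕ :=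
  ∑ u ∈ S, ∑ v ∈ Sᶜ, if G.Adj u v then w s(u, v) else 0

/-- `w` is an eulerian weight with values in `{1, 2}`: every edge cut has even total weight. -/
def IsEulerianWeight {V : Type} [Fintype V] (G : SimpleGraph V) (w : Sym2 V → ℕ) : Prop :=
  (∀ e ∈ G.edgeSet, w e = 1 ∨ w e = 2) ∧ ∀ S : Finset V, Even (cutWeight G w S)

open Classical in
/-- `F` is a cycle `w`-cover: a finite family of cycles such that each edge `e` lies in exactly
`w e` of its members (counted with multiplicity). -/
def IsCycleWCover {V : Type} (G : SimpleGraph V) (w : Sym2 V → ℕ)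
    (F : List (Σ u : V, G.Walk u u)) : Prop :=
  (∀ C ∈ F, C.2.IsCycle) ∧ ∀ e ∈ G.edgeSet, F.countP (fun C => decide (e ∈ C.2.edges)) = w e

/-- `G` has the cycle cover property: it has a cycle `w`-cover for every eulerian weight
`w : E(G) → {1, 2}`. -/
def CycleCoverProperty {V : Type} [Fintype V] (G : SimpleGraph V) : Prop :=
  ∀ w : Sym2 V → ℕ, IsEulerianWeight G w → ∃ F, IsCycleWCover G w F

/-! ### The cut weights -/

lemma even_inner {V : Type} [DecidableEq V] (f : V → V → ℕ) (hs : ∀ u v, f u v = f v u)
    (h0 : ∀ u, f u u = 0) (S : Finset V) : Even (∑ u ∈ S, ∑ v ∈ S, f u v) := by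
  induction S using Finset.induction_on with
  | empty => simp
  | insert a S ha ih =>
    have h1 : ∑ u ∈ insert a S, ∑ v ∈ insert a S, f u v
        = (∑ u ∈ S, ∑ v ∈ S, f u v) + 2 * ∑ v ∈ S, f a v := by
      rw [Finset.sum_insert ha, Finset.sum_insert ha, h0]
      have h2 : ∀ u ∈ S, ∑ v ∈ insert a S, f u v = f a u + ∑ v ∈ S, f u v := by
        intro u _
        rw [Finset.sum_insert ha, hs u a]
      rw [Finset.sum_congr rfl h2, Finset.sum_add_distrib]
      ring
    rw [h1]
    exact ih.add (even_two_mul _)

lemma even_cut {V : Type} [Fintype V] [DecidableEq V] (f : V → V → ℕ)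
    (hs : ∀ u v, f u v = f v u) (h0 : ∀ u, f u u = 0) (hd : ∀ u, Even (∑ v, f u v))
    (S : Finset V) : Even (∑ u ∈ S, ∑ v ∈ Sᶜ, f u v) := by
  have h1 : ∑ u ∈ S, ∑ v, f u v = (∑ u ∈ S, ∑ v ∈ S, f u v) + ∑ u ∈ S, ∑ v ∈ Sᶜ, f u v := by
    rw [← Finset.sum_add_distrib]
    refine Finset.sum_congr rfl fun u _ => ?_
    rw [Finset.sum_add_sum_compl]
  have h2 : Even (∑ u ∈ S, ∑ v, f u v) := by
    apply Finset.even_sum
    intro u _
    exact hd u
  have h3 := even_inner f hs h0 S
  rw [h1] at h2
  exact (Nat.even_add.1 h2).1 h3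

open Pool.Agent.W149.PP

lemma wt_degree : ∀ u : Fin 18, Even (∑ v, if G.Adj u v then wt s(u, v) else 0) := by
  decide +kernel

/-- the contribution of an ordered pair to a cut weight -/
noncomputable def ff (u v : Fin 18) : ℕ :=
  @ite ℕ (G.Adj u v) (Classical.propDecidable _) (wt s(u, v)) 0

lemma ff_symm (u v : Fin 18) : ff u v = ff v u := by
  unfold ff
  rw [Sym2.eq_swap (a := u) (b := v)]
  by_cases h : G.Adj u v
  · rw [if_pos h, if_pos h.symm]
  · rw [if_neg h, if_neg (fun h' => h h'.symm)]

lemma ff_self (u : Fin 18) : ff u u = 0 := by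
  unfold ff
  rw [if_neg (G.loopless.irrefl u)]

lemma ff_degree (u : Fin 18) : Even (∑ v, ff u v) := by
  have h := wt_degree u
  have h2 : ∑ v, ff u v = ∑ v, if G.Adj u v then wt s(u, v) else 0 := by
    refine Finset.sum_congr rfl fun v _ => ?_
    unfold ff
    by_cases h : G.Adj u v
    · simp only [h, if_true]
    · simp only [h, if_false]
  rw [h2]
  exact h

lemma wt_eulerian : IsEulerianWeight G wt := by
  refine ⟨fun e _ => ?_, fun S => ?_⟩
  · unfold wt
    split_ifs
    · exact Or.inr rfl
    · exact Or.inl rfl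
  · exact @even_cut (Fin 18) _ (fun a b => Classical.propDecidable (a = b)) ff ff_symm ff_self
      ff_degree S

lemma scc_eq : SCC G = 36 := by
  unfold SCC
  apply le_antisymm
  · exact Nat.sInf_le ⟨fam, ⟨fam_cycles, fam_covers⟩, fam_length⟩
  · refine le_csInf ⟨36, fam, ⟨fam_cycles, fam_covers⟩, fam_length⟩ ?_
    rintro n ⟨F, ⟨hF, hcov⟩, rfl⟩
    exact cover_lower F hF hcov

lemma cpp_eq : CPP G = 36 := by
  unfold CPP
  apply le_antisymm
  · exact Nat.sInf_le ⟨_, tour, tour_covers, tour_length⟩
  · refine le_csInf ⟨36, _, tour, tour_covers, tour_length⟩ ?_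
    rintro n ⟨u, p, hp, rfl⟩
    exact tour_lower p hp

/-- Q1 is answered in the negative: there is a 3-connected graph with `SCC(G) = CPP(G)` that does
not have the cycle cover property. (Cycle covers and postman tours exist, so both minima are
attained.) -/
theorem result : ∃ (V : Type) (_ : Fintype V) (G : SimpleGraph V),
    ThreeConnected G ∧
    (∃ F, IsCycleCover G F ∧ coverLength F = SCC G) ∧
    (∃ (u : V) (p : G.Walk u u), IsPostmanTour G p ∧ p.length = CPP G) ∧
    SCC G = CPP G ∧ ¬ CycleCoverProperty G := by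
  refine ⟨Fin 18, inferInstance, G, G_three_connected, ?_, ?_, ?_, ?_⟩
  · exact ⟨fam, ⟨fam_cycles, fam_covers⟩, by rw [scc_eq]; exact fam_length⟩
  · exact ⟨_, tour, tour_covers, by rw [cpp_eq]; exact tour_length⟩
  · rw [scc_eq, cpp_eq]
  · intro hprop
    obtain ⟨F, hF, h⟩ := hprop wt wt_eulerian
    refine not_covered F hF fun e he => ?_
    rw [← h e he]
    refine List.countP_congr fun C _ => ?_
    simp only [decide_eq_true_eq]

end Pool.Agent.Results.MP_b9ebd9_co.ThreeConnectedCounterexample
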